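import Pool.Agent.W606.PS.Stm

/-!
# Project PS: links of the face vertices are connected
-/

set_option autoImplicit false

open Set Relation

namespace Pool.Agent.W762.PS.Link

open Pool.Agent.W606.PS

theorem con_range {A W : Type} {G₀ : SimpleGraph A} {G : SimpleGraph (A ⊕ W)} (h : VF G₀ G)
    (h₀ : Con G₀ univ) : Con G (range (Sum.inl : A → A ⊕ W)) := by
  obtain ⟨a, -⟩ := h₀.1
  refine con_of_base (u := Sum.inl a) ⟨a, rfl⟩ ?_
  rintro _ ⟨b, rfl⟩
  have p := h₀.2 a (mem_univ a) b (mem_univ b)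
  induction p with
  | refl => exact ReflTransGen.refl
  | tail _ q ih => exact ih.tail ⟨(h.ll _ _).2 q.1, ⟨_, rfl⟩, ⟨_, rfl⟩⟩

theorem main : S_LINK := by
  intro A W _ _ G₀ G h h₀ hc hN w
  have hR := con_range h h₀
  obtain ⟨a₀, -⟩ := h₀.1
  have hcompl : Con G ({Sum.inr w} : Set (A ⊕ W))ᶜ := by
    refine con_of_cover hR ?_ ?_
    · rintro _ ⟨a, rfl⟩ ha
      exact Sum.inl_ne_inr ha
    · rintro (a | w') hv
      · refine ⟨range Sum.inl, ⟨a, rfl⟩, ?_, hR, ⟨Sum.inl a, ⟨a, rfl⟩, ⟨a, rfl⟩⟩⟩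
        rintro _ ⟨a, rfl⟩ ha
        exact Sum.inl_ne_inr ha
      · obtain ⟨x, y, -, -, hx, hy, e⟩ := hc.exit (A := {Sum.inr w'}) (u := Sum.inr w')
          (v := Sum.inl a₀) (mem_univ _) rfl (mem_univ _) (fun hh => Sum.inl_ne_inr hh)
        rw [mem_singleton_iff] at hx
        subst hx
        rcases y with b | w''
        · refine ⟨{Sum.inr w'} ∪ {Sum.inl b}, Or.inl rfl, ?_,
            (con_singleton G _).union_tch (con_singleton G _) ⟨_, rfl, _, rfl, e⟩,
            ⟨Sum.inl b, Or.inr rfl, ⟨b, rfl⟩⟩⟩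
          rintro z (hz | hz)
          · rw [mem_singleton_iff] at hz
            subst hz
            exact hv
          · rw [mem_singleton_iff] at hz
            subst hz
            intro hh
            exact Sum.inl_ne_inr hh
        · exact absurd e (h.rr _ _)
  have hNb := hN {Sum.inr w} (con_singleton G _) hcompl
  have hmem : ∀ v, v ∈ Nb G {Sum.inr w} → ∃ a, v = Sum.inl a ∧ G.Adj (Sum.inr w) (Sum.inl a) := by
    rintro v ⟨-, u, hu, e⟩
    rw [mem_singleton_iff] at hu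
    subst hu
    rcases v with a | w'
    · exact ⟨a, rfl, e⟩
    · exact absurd e (h.rr _ _)
  have hmem' : ∀ a, G.Adj (Sum.inr w) (Sum.inl a) → Sum.inl a ∈ Nb G {Sum.inr w} :=
    fun a ha => ⟨fun hh => Sum.inl_ne_inr hh, Sum.inr w, rfl, ha⟩
  obtain ⟨v, hv⟩ := hNb.1
  obtain ⟨a, rfl, ha⟩ := hmem v hv
  refine con_of_base (u := a) ha ?_
  intro b hb
  have p := hNb.2 _ (hmem' a ha) _ (hmem' b hb)
  have key : ∀ v, ReflTransGen (fun x y => G.Adj x y ∧ x ∈ Nb G {Sum.inr w} ∧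
      y ∈ Nb G {Sum.inr w}) (Sum.inl a) v → ∀ b, v = Sum.inl b →
      ReflTransGen (fun x y => G₀.Adj x y ∧ x ∈ {a | G.Adj (Sum.inr w) (Sum.inl a)} ∧
        y ∈ {a | G.Adj (Sum.inr w) (Sum.inl a)}) a b := by
    intro v p
    induction p with
    | refl =>
      intro b hb
      rw [Sum.inl.inj hb]
    | @tail x y _ q ih =>
      intro b hb
      obtain ⟨c, rfl, hc'⟩ := hmem x q.2.1
      obtain ⟨d, rfl, hd'⟩ := hmem y q.2.2
      have hdb : d = b := Sum.inl.inj hb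
      subst hdb
      exact (ih c rfl).tail ⟨(h.ll _ _).1 q.1, hc', hd'⟩
  exact key _ p b rfl

end Pool.Agent.W762.PS.Link
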